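import Pool.Agent.Helper20.HP.Data2
import Pool.Agent.Helper20.PC.Sph

/-!
# Jets of the connection form along the geodesics (HOPF-Q4)
-/

open Filter Metric Module Set
open scoped Topology ContDiff RealInnerProductSpace Manifold Quaternion

namespace Pool.Agent.Helper96.HP
open Pool.Agent.Helper20.PC Pool.Agent.Helper20.HP

/-! ### algebra in `ℝ³` -/

lemma inner3 (a b : E3) : ⟪a, b⟫ = a 0 * b 0 + a 1 * b 1 + a 2 * b 2 := by
  simp [PiLp.inner_apply, Fin.sum_univ_three]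
  ring

lemma Hb_eq_inner (x y : E3) : Hb x y = ⟪Hv x, y⟫ := by
  rw [inner3]; simp [Hb, HbG, Hv]; ring

lemma Hb_add_right (x y z : E3) : Hb x (y + z) = Hb x y + Hb x z := by
  simp [Hb, HbG]; ring

lemma Hb_smul_right (r : ℝ) (x y : E3) : Hb x (r • y) = r * Hb x y := by
  simp [Hb, HbG]; ring

lemma Hb_smul_left (r : ℝ) (x y : E3) : Hb (r • x) y = r * Hb x y := by
  simp [Hb, HbG]; ring

lemma Hb_comm (x y : E3) : Hb x y = Hb y x := by
  simp [Hb, HbG]; ring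

lemma cr_self (a : E3) : cr a a = 0 := by
  ext i; fin_cases i <;> simp [cr] <;> ring

lemma cr_smul_right (r : ℝ) (a b : E3) : cr a (r • b) = r • cr a b := by
  ext i; fin_cases i <;> simp [cr] <;> ring

lemma cr_smul_left (r : ℝ) (a b : E3) : cr (r • a) b = r • cr a b := by
  ext i; fin_cases i <;> simp [cr] <;> ring

lemma inner_cr_self (a b : E3) : ⟪cr a b, a⟫ = 0 := by
  rw [inner3]; simp [cr]; ring

/-- triple product -/
lemma inner_cr_swap (a v b : E3) : ⟪cr a v, b⟫ = - ⟪v, cr a b⟫ := by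
  rw [inner3, inner3]; simp [cr]; ring

lemma inner_cr_cr (a v b : E3) : ⟪cr a v, cr a b⟫ = ⟪a, a⟫ * ⟪v, b⟫ - ⟪a, b⟫ * ⟪v, a⟫ := by
  simp only [inner3]; simp [cr]; ring

lemma cr_cr (a b : E3) : cr a (cr a b) = ⟪a, b⟫ • a - ⟪a, a⟫ • b := by
  rw [inner3, inner3]
  ext i; fin_cases i <;> simp [cr] <;> ring

/-- expansion in the orthonormal basis `x, X, x × X`. -/
lemma expand {x X : E3} (hx : ‖x‖ = 1) (hX : ‖X‖ = 1) (hxX : ⟪x, X⟫ = 0) (v : E3) :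
    v = ⟪v, x⟫ • x + ⟪v, X⟫ • X + ⟪v, cr x X⟫ • cr x X := by
  have h1 : x 0 * x 0 + x 1 * x 1 + x 2 * x 2 = 1 := by
    rw [← inner3, real_inner_self_eq_norm_sq, hx]; norm_num
  have h2 : X 0 * X 0 + X 1 * X 1 + X 2 * X 2 = 1 := by
    rw [← inner3, real_inner_self_eq_norm_sq, hX]; norm_num
  have h3 : x 0 * X 0 + x 1 * X 1 + x 2 * X 2 = 0 := by rw [← inner3]; exact hxX
  have key : ∀ i j : Fin 3, (cr x X) i * (cr x X) j = (if i = j then 1 else 0) - x i * x j - X i * X j := by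
    intro i j
    fin_cases i <;> fin_cases j <;> simp [cr]
    · linear_combination (X 1 ^ 2 + X 2 ^ 2) * h1 + (1 - x 0 ^ 2) * h2
        - (x 1 * X 1 + x 2 * X 2 - x 0 * X 0) * h3
    · linear_combination (- X 0 * X 1) * h1 + (- x 0 * x 1) * h2 + (x 0 * X 1 + x 1 * X 0) * h3
    · linear_combination (- X 0 * X 2) * h1 + (- x 0 * x 2) * h2 + (x 0 * X 2 + x 2 * X 0) * h3
    · linear_combination (- X 0 * X 1) * h1 + (- x 0 * x 1) * h2 + (x 0 * X 1 + x 1 * X 0) * h3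
    · linear_combination (X 0 ^ 2 + X 2 ^ 2) * h1 + (1 - x 1 ^ 2) * h2
        - (x 0 * X 0 + x 2 * X 2 - x 1 * X 1) * h3
    · linear_combination (- X 1 * X 2) * h1 + (- x 1 * x 2) * h2 + (x 1 * X 2 + x 2 * X 1) * h3
    · linear_combination (- X 0 * X 2) * h1 + (- x 0 * x 2) * h2 + (x 0 * X 2 + x 2 * X 0) * h3
    · linear_combination (- X 1 * X 2) * h1 + (- x 1 * x 2) * h2 + (x 1 * X 2 + x 2 * X 1) * h3
    · linear_combination (X 0 ^ 2 + X 1 ^ 2) * h1 + (1 - x 2 ^ 2) * h2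
        - (x 0 * X 0 + x 1 * X 1 - x 2 * X 2) * h3
  ext i
  simp only [PiLp.add_apply, PiLp.smul_apply, smul_eq_mul, inner3]
  have k0 := key 0 i
  have k1 := key 1 i
  have k2 := key 2 i
  fin_cases i <;> simp at k0 k1 k2 ⊢ <;>
  linear_combination (- v 0) * k0 - v 1 * k1 - v 2 * k2

lemma inner_cr_right_self (a b : E3) : ⟪a, cr a b⟫ = 0 := by
  rw [inner3]; simp [cr]; ring

lemma inner_cr_right (a b : E3) : ⟪b, cr a b⟫ = 0 := by
  rw [inner3]; simp [cr]; ring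

lemma sg_pos {κ : ℝ} (hκ : |κ| ≤ 1/10) {x : E3} (hx : ‖x‖ = 1) : 0 < sg κ x := by
  have h1 : x 0 * x 0 + x 1 * x 1 + x 2 * x 2 = 1 := by
    rw [← inner3, real_inner_self_eq_norm_sq, hx]; norm_num
  have h2 : |Hb x x| ≤ 2 := by
    simp only [Hb, HbG]
    rw [abs_le]
    constructor <;> nlinarith [sq_nonneg (x 0 + (x 1 + x 2)), sq_nonneg (x 0 - (x 1 + x 2)),
      sq_nonneg (x 1 - x 2), sq_nonneg (x 1 + x 2)]
  have h3 : |κ * Hb x x| ≤ 1/10 * 2 := by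
    rw [abs_mul]
    exact mul_le_mul hκ h2 (abs_nonneg _) (by norm_num)
  have h4 := (abs_le.1 h3).2
  unfold sg
  linarith

/-- the form of the jet `jx2`. -/
lemma jx2_eq (κ : ℝ) (x X : E3) : jx2 κ x X = (-2 * κ * sg κ x * Hb x X) • X - (sg κ x ^ 2) • x
    + (2 * κ * sg κ x * Hb x (cr x X)) • cr x X := by
  unfold jx2 jX1 js1 jx1 sgn
  rw [Hb_smul_right]
  module

/-- Part 1. -/
theorem gam_jx1 {κ : ℝ}
    (gam_hE : ∀ x u v : E3, ‖x‖ = 1 → ⟪x, u⟫ = 0 → ⟪x, v⟫ = 0 →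
      Gam (hE κ) x u v = (2 * κ / sg κ x) • (Hb x u • v + Hb x v • u)
        - (2 * κ / sg κ x * ⟪u, v⟫) • (Hv x - Hb x x • x) + (⟪u, v⟫ : ℝ) • x)
    (hκ : |κ| ≤ 1/10) {x X : E3} (hx : ‖x‖ = 1) (hX : ‖X‖ = 1) (hxX : ⟪x, X⟫ = 0) :
    Gam (hE κ) x (jx1 κ x X) (jx1 κ x X) = - jx2 κ x X := by
  have hs := (sg_pos hκ hx).ne'
  have hu : ⟪x, jx1 κ x X⟫ = 0 := by rw [jx1, inner_smul_right, hxX, mul_zero]
  have hXX : ⟪X, X⟫ = (1 : ℝ) := by rw [real_inner_self_eq_norm_sq, hX]; norm_num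
  have hin : ⟪jx1 κ x X, jx1 κ x X⟫ = sg κ x ^ 2 := by
    rw [jx1, inner_smul_left, inner_smul_right, hXX]; simp; ring
  rw [gam_hE x _ _ hx hu hu, hin, jx2_eq]
  have e1 := expand hx hX hxX (Hv x)
  rw [← Hb_eq_inner, ← Hb_eq_inner, ← Hb_eq_inner] at e1
  rw [e1, jx1, Hb_smul_right]
  have e2 : (2 * κ / sg κ x) • ((sg κ x * Hb x X) • sg κ x • X + (sg κ x * Hb x X) • sg κ x • X)
      = (4 * κ * sg κ x * Hb x X) • X := by
    rw [← add_smul, smul_smul, smul_smul]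
    congr 1
    field_simp
    ring
  have e3 : 2 * κ / sg κ x * sg κ x ^ 2 = 2 * κ * sg κ x := by field_simp
  rw [e2, e3]
  module

lemma Av_self (κ ε : ℝ) (y : E3) : Av κ ε y y = 0 := by
  rw [Av, cr_self, inner_cr_self]; simp

lemma nn_unit {y : E3} (hy : ‖y‖ = 1) : nn y = y := by simp [nn, hy]

lemma AE_unit (κ ε : ℝ) {y : E3} (hy : ‖y‖ = 1) (u : E3) :
    AE κ ε y u = (1/2 : ℝ) • qimL (Av κ ε y u) := by
  have h1 : dn y u = u - ⟪y, u⟫ • y := by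
    rw [dn_apply, dl_apply, hy]; simp
  have h2 : AE κ ε y u = (1/2 : ℝ) • qimL (AvL κ ε (nn y) (dn y u)) := rfl
  rw [h2, nn_unit hy, h1, map_sub, map_smul, AvL_apply, AvL_apply, Av_self, smul_zero, sub_zero]

lemma Av_smul (κ ε r : ℝ) (x u : E3) : Av κ ε x (r • u) = r • Av κ ε x u := by
  rw [← AvL_apply, map_smul, AvL_apply]

lemma Av_add (κ ε : ℝ) (x u v : E3) : Av κ ε x (u + v) = Av κ ε x u + Av κ ε x v := by
  rw [← AvL_apply, map_add, AvL_apply, AvL_apply]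

lemma Av_sub (κ ε : ℝ) (x u v : E3) : Av κ ε x (u - v) = Av κ ε x u - Av κ ε x v := by
  rw [← AvL_apply, map_sub, AvL_apply, AvL_apply]

/-- `A` in the frame. -/
lemma Av_X {κ ε : ℝ} (x X : E3) :
    Av κ ε x X = (rr ε x / sg κ x - 1) • cr x X + (sgn κ x X / sg κ x) • x := by
  rw [Av, inner_cr_swap, ← Hb_eq_inner, sgn]
  congr 2
  ring

lemma Av_n {κ ε : ℝ} {x X : E3} (hx : ‖x‖ = 1) (hxX : ⟪x, X⟫ = 0) :
    Av κ ε x (cr x X) = - (rr ε x / sg κ x - 1) • X + (2 * κ / sg κ x * Hb x X) • x := by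
  have hxx : ⟪x, x⟫ = (1 : ℝ) := by rw [real_inner_self_eq_norm_sq, hx]; norm_num
  rw [Av, inner_cr_cr, hxx, hxX, cr_cr, hxx, hxX, ← Hb_eq_inner]
  module

/-- Part 2. -/
theorem AE_jx1 {κ ε : ℝ} (hκ : |κ| ≤ 1/10) {x X : E3} (hx : ‖x‖ = 1) :
    AE κ ε x (jx1 κ x X) = (1/2 : ℝ) • qimL (jw0 κ ε x X) := by
  have hs := (sg_pos hκ hx).ne'
  rw [AE_unit κ ε hx, jx1, Av_smul, Av_X]
  congr 2
  rw [jw0, smul_add, smul_smul, smul_smul]
  congr 2
  · field_simp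
  · field_simp

/-! ### differentiability -/

lemma differentiableAt_AE {κ ε : ℝ} (hκ : |κ| ≤ 1/10) {x : E3} (hx : x ≠ 0) :
    DifferentiableAt ℝ (AE κ ε) x := by
  have hn : ContDiffAt ℝ 1 (nn : E3 → E3) x :=
    ((contDiffAt_norm ℝ hx).inv (norm_ne_zero_iff.2 hx)).smul contDiffAt_id
  have hu : ‖nn x‖ = 1 := norm_normalize hx
  have hs := (sg_pos hκ hu).ne'
  have hA : ContDiffAt ℝ 1 (AE κ ε) x := by
    refine contDiffAt_of_apply (fun u => ?_)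
    have h1 : (fun y => AE κ ε y u) = fun y => (1/2 : ℝ) • qimL (Av κ ε (nn y) (dn y u)) := by
      funext y
      have h2 : AE κ ε y u = (1/2 : ℝ) • qimL (AvL κ ε (nn y) (dn y u)) := rfl
      rw [h2, AvL_apply]
    rw [h1]
    have hd : ContDiffAt ℝ 1 (fun y => dn y u) x := (contDiffAt_dn hx).clm_apply contDiffAt_const
    have hni : ∀ i, ContDiffAt ℝ 1 (fun y => nn y i) x := fun i =>
      (EuclideanSpace.proj i : E3 →L[ℝ] ℝ).contDiff.contDiffAt.comp x hn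
    have hdi : ∀ i, ContDiffAt ℝ 1 (fun y => dn y u i) x := fun i =>
      (EuclideanSpace.proj i : E3 →L[ℝ] ℝ).contDiff.contDiffAt.comp x hd
    have hsg : ContDiffAt ℝ 1 (fun y => sg κ (nn y)) x := by
      simp only [sg, Hb, HbG]
      exact contDiffAt_const.sub (contDiffAt_const.mul (((hni 0).mul ((hni 1).add (hni 2))).add
        (((hni 1).add (hni 2)).mul (hni 0))))
    have hrr : ContDiffAt ℝ 1 (fun y => rr ε (nn y)) x := by
      simp only [rr]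
      exact contDiffAt_const.add (contDiffAt_const.mul (hni 2))
    have hcr : ContDiffAt ℝ 1 (fun y => cr (nn y) (dn y u)) x :=
      ((crL.contDiff.contDiffAt.comp x hn).clm_apply hd)
    have hin : ContDiffAt ℝ 1 (fun y => ⟪cr (nn y) (Hv (nn y)), dn y u⟫) x := by
      have e : (fun y => ⟪cr (nn y) (Hv (nn y)), dn y u⟫) = fun y =>
          (nn y 1 * nn y 0 - nn y 2 * nn y 0) * dn y u 0
          + (nn y 2 * (nn y 1 + nn y 2) - nn y 0 * nn y 0) * dn y u 1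
          + (nn y 0 * nn y 0 - nn y 1 * (nn y 1 + nn y 2)) * dn y u 2 := by
        funext y
        rw [inner3]; simp [cr, Hv]
      rw [e]
      exact ((((((hni 1).mul (hni 0)).sub ((hni 2).mul (hni 0))).mul (hdi 0))).add
        ((((hni 2).mul ((hni 1).add (hni 2))).sub ((hni 0).mul (hni 0))).mul (hdi 1))).add
        ((((hni 0).mul (hni 0)).sub ((hni 1).mul ((hni 1).add (hni 2)))).mul (hdi 2))
    have hAv : ContDiffAt ℝ 1 (fun y => Av κ ε (nn y) (dn y u)) x := by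
      simp only [Av]
      exact (((hrr.div hsg hs).sub contDiffAt_const).smul hcr).add
        (((contDiffAt_const.div hsg hs).mul hin).smul hn)
    exact (qimL.contDiff.contDiffAt.comp x hAv).const_smul (1/2 : ℝ)
  exact hA.differentiableAt (by norm_num)

/-- derivative of `A` along a curve. -/
lemma hasDerivAt_Av {κ ε : ℝ} {x w u : E3} (hs : sg κ x ≠ 0) {c : ℝ → E3} (hc0 : c 0 = x)
    (hc : HasDerivAt c w 0) :
    HasDerivAt (fun t => Av κ ε (c t) u)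
      ((ε * w 2 / sg κ x + 2 * κ * rr ε x * Hb x w / sg κ x ^ 2) • cr x u
        + (rr ε x / sg κ x - 1) • cr w u
        + (4 * κ ^ 2 * Hb x w / sg κ x ^ 2 * ⟪cr x (Hv x), u⟫
          + 2 * κ / sg κ x * (⟪cr w (Hv x), u⟫ + ⟪cr x (Hv w), u⟫)) • x
        + (2 * κ / sg κ x * ⟪cr x (Hv x), u⟫) • w) 0 := by
  have hi : ∀ i, HasDerivAt (fun t => c t i) (w i) 0 := fun i =>
    (EuclideanSpace.proj i : E3 →L[ℝ] ℝ).hasFDerivAt.comp_hasDerivAt 0 hc
  have h1 : HasDerivAt (fun t => sg κ (c t)) (-(2 * κ * Hb x w)) 0 := by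
    simp only [sg, Hb, HbG]
    refine ((((hi 0).mul ((hi 1).add (hi 2))).add
        (((hi 1).add (hi 2)).mul (hi 0))).const_mul κ |>.const_sub 1).congr_deriv ?_
    simp [hc0]
    ring
  have h2 : HasDerivAt (fun t => rr ε (c t)) (ε * w 2) 0 := by
    simp only [rr]
    exact ((hi 2).const_mul ε).const_add (1/2)
  have h3 : HasDerivAt (fun t => cr (c t) u) (cr w u) 0 :=
    (crL.flip u).hasFDerivAt.comp_hasDerivAt 0 hc
  have h4 : HasDerivAt (fun t => ⟪cr (c t) (Hv (c t)), u⟫) (⟪cr w (Hv x), u⟫ + ⟪cr x (Hv w), u⟫) 0 := by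
    have e : (fun t => ⟪cr (c t) (Hv (c t)), u⟫) = fun t =>
        (c t 1 * c t 0 - c t 2 * c t 0) * u 0
          + (c t 2 * (c t 1 + c t 2) - c t 0 * c t 0) * u 1
          + (c t 0 * c t 0 - c t 1 * (c t 1 + c t 2)) * u 2 := by
      funext y
      rw [inner3]; simp [cr, Hv]
    rw [e]
    refine (((((((hi 1).mul (hi 0)).sub ((hi 2).mul (hi 0))).mul_const (u 0)))).add
        ((((hi 2).mul ((hi 1).add (hi 2))).sub ((hi 0).mul (hi 0))).mul_const (u 1))).add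
        ((((hi 0).mul (hi 0)).sub ((hi 1).mul ((hi 1).add (hi 2)))).mul_const (u 2)) |>.congr_deriv ?_
    rw [inner3, inner3]
    simp [hc0, cr, Hv]
    ring
  have hs0 : sg κ (c 0) ≠ 0 := by rw [hc0]; exact hs
  have h5 := (((h2.div h1 hs0).sub_const 1).smul h3).add
    ((((h1.inv hs0).const_mul (2 * κ)).mul h4).smul hc)
  simp only [Av]
  have e6 : (fun t => (rr ε (c t) / sg κ (c t) - 1) • cr (c t) u
      + (2 * κ / sg κ (c t) * ⟪cr (c t) (Hv (c t)), u⟫) • c t) =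
      ((fun t => (rr ε (c t) / sg κ (c t) - 1) • cr (c t) u)
      + (fun t => (2 * κ * (sg κ (c t))⁻¹ * ⟪cr (c t) (Hv (c t)), u⟫) • c t)) := by
    funext t
    simp [div_eq_mul_inv]
  rw [e6]
  refine h5.congr_deriv ?_
  simp only [Pi.div_apply, Pi.mul_apply, Pi.inv_apply, hc0]
  have a1 : (ε * w 2 * sg κ x - rr ε x * -(2 * κ * Hb x w)) / sg κ x ^ 2
      = ε * w 2 / sg κ x + 2 * κ * rr ε x * Hb x w / sg κ x ^ 2 := by
    field_simp
    ring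
  have a2 : 2 * κ * (- -(2 * κ * Hb x w) / sg κ x ^ 2) * ⟪cr x (Hv x), u⟫
      + 2 * κ * (sg κ x)⁻¹ * (⟪cr w (Hv x), u⟫ + ⟪cr x (Hv w), u⟫)
      = 4 * κ ^ 2 * Hb x w / sg κ x ^ 2 * ⟪cr x (Hv x), u⟫
          + 2 * κ / sg κ x * (⟪cr w (Hv x), u⟫ + ⟪cr x (Hv w), u⟫) := by
    rw [div_eq_mul_inv (2 * κ) (sg κ x)]
    ring
  rw [a1, a2, ← div_eq_mul_inv]
  module

/-- Part 3. -/
theorem AE_jx1_deriv {κ ε : ℝ} (hκ : |κ| ≤ 1/10) {x X : E3} (hx : ‖x‖ = 1) (hX : ‖X‖ = 1)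
    (hxX : ⟪x, X⟫ = 0) :
    fderiv ℝ (AE κ ε) x (jx1 κ x X) (jx1 κ x X) + AE κ ε x (jx2 κ x X)
      = (1/2 : ℝ) • qimL (jw1 κ ε x X) := by
  have hs := (sg_pos hκ hx).ne'
  have hx0 : x ≠ 0 := by
    rintro rfl; rw [norm_zero] at hx; exact zero_ne_one hx
  have hxx : ⟪x, x⟫ = (1 : ℝ) := by rw [real_inner_self_eq_norm_sq, hx]; norm_num
  have hXX : ⟪X, X⟫ = (1 : ℝ) := by rw [real_inner_self_eq_norm_sq, hX]; norm_num
  have hXx : ⟪X, x⟫ = (0 : ℝ) := by rw [real_inner_comm]; exact hxX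
  set w := jx1 κ x X with hw
  set c : ℝ → E3 := fun t => Real.cos (t * sg κ x) • x + Real.sin (t * sg κ x) • X with hcd
  have hc0 : c 0 = x := by simp [hcd]
  have hc1 : ∀ t, ‖c t‖ = 1 := by
    intro t
    have h1 : ‖c t‖ ^ 2 = 1 := by
      rw [← real_inner_self_eq_norm_sq]
      simp only [hcd, inner_add_left, inner_add_right, inner_smul_left, inner_smul_right, hxx, hXX,
        hxX, hXx, RCLike.conj_to_real]
      nlinarith [Real.sin_sq_add_cos_sq (t * sg κ x)]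
    have h2 := norm_nonneg (c t)
    nlinarith [h1, h2]
  have hc : HasDerivAt c w 0 := by
    have h1 : HasDerivAt (fun t : ℝ => t * sg κ x) (sg κ x) 0 := by
      simpa using (hasDerivAt_id (0 : ℝ)).mul_const (sg κ x)
    have h2 := (h1.cos.smul_const x).add (h1.sin.smul_const X)
    refine h2.congr_deriv ?_
    simp [hw, jx1]
  have hd := (differentiableAt_AE (ε := ε) hκ hx0).hasFDerivAt
  rw [← hc0] at hd
  have h1 := hd.comp_hasDerivAt 0 hc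
  have h2 : HasDerivAt (fun t => AE κ ε (c t) w) (fderiv ℝ (AE κ ε) (c 0) w w) 0 :=
    (ContinuousLinearMap.apply ℝ ℍ[ℝ] w).hasFDerivAt.comp_hasDerivAt 0 h1
  rw [hc0] at h2
  have h3 : (fun t => AE κ ε (c t) w) = fun t => (1/2 : ℝ) • qimL (Av κ ε (c t) w) := by
    funext t
    exact AE_unit κ ε (hc1 t) w
  rw [h3] at h2
  have h4 := (qimL.hasFDerivAt.comp_hasDerivAt 0
    (hasDerivAt_Av (κ := κ) (ε := ε) (u := w) hs hc0 hc)).const_smul (1/2 : ℝ)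
  have h5 := h2.unique h4
  rw [h5, AE_unit κ ε hx, ← smul_add, ← map_add]
  congr 2
  -- algebra
  have ewX : w = sg κ x • X := hw
  have e1 : cr x w = sg κ x • cr x X := by rw [ewX, cr_smul_right]
  have e2 : ⟪cr x (Hv x), w⟫ = - (sg κ x * Hb x (cr x X)) := by
    rw [ewX, inner_smul_right, inner_cr_swap, ← Hb_eq_inner]; ring
  have e3 : ⟪cr w (Hv x), w⟫ = 0 := inner_cr_self w (Hv x)
  have e4 : ⟪cr x (Hv w), w⟫ = - (sg κ x ^ 2 * Hb X (cr x X)) := by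
    rw [inner_cr_swap, ← Hb_eq_inner, e1, Hb_smul_right]
    rw [ewX, Hb_smul_left]; ring
  have e5 : Hb x w = sg κ x * Hb x X := by rw [ewX, Hb_smul_right]
  have e6 : Av κ ε x (jx2 κ x X) = (-2 * κ * sg κ x * Hb x X) •
      ((rr ε x / sg κ x - 1) • cr x X + (sgn κ x X / sg κ x) • x)
      + (2 * κ * sg κ x * Hb x (cr x X)) •
      (- (rr ε x / sg κ x - 1) • X + (2 * κ / sg κ x * Hb x X) • x) := by
    rw [jx2_eq, Av_add, Av_sub, Av_smul, Av_smul, Av_smul, Av_self, Av_X, Av_n hx hxX]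
    simp
  have e7 : jw1 κ ε x X = (ε * w 2 + 2 * κ * sg κ x * Hb x X) • cr x X
      + (rr ε x - sg κ x) • (-2 * κ * Hb x (cr x X)) • X
      + (-2 * κ * (sg κ x * Hb X (cr x X) + -2 * κ * Hb x (cr x X) * Hb x X)) • x
      + (-2 * κ * Hb x (cr x X)) • w := by
    rw [jw1, jsn1, jn1, js1, sgn, ← hw, e5, Hb_smul_right]
    rw [ewX, Hb_smul_left]
    module
  rw [e1, cr_self, e2, e3, e4, e5, e6, e7, sgn, smul_zero, ewX]
  simp only [PiLp.smul_apply, smul_eq_mul]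
  match_scalars <;> field_simp <;> ring

/-- HOPF-Q4; the hypothesis `gam_hE` is HOPF-Q1b. -/
theorem AE_jets {κ ε : ℝ}
    (gam_hE : ∀ x u v : E3, ‖x‖ = 1 → ⟪x, u⟫ = 0 → ⟪x, v⟫ = 0 →
      Gam (hE κ) x u v = (2 * κ / sg κ x) • (Hb x u • v + Hb x v • u)
        - (2 * κ / sg κ x * ⟪u, v⟫) • (Hv x - Hb x x • x) + (⟪u, v⟫ : ℝ) • x)
    (hκ : |κ| ≤ 1/10) {x X : E3} (hx : ‖x‖ = 1) (hX : ‖X‖ = 1) (hxX : ⟪x, X⟫ = 0) :
    Gam (hE κ) x (jx1 κ x X) (jx1 κ x X) = - jx2 κ x X ∧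
    AE κ ε x (jx1 κ x X) = (1/2 : ℝ) • qimL (jw0 κ ε x X) ∧
    fderiv ℝ (AE κ ε) x (jx1 κ x X) (jx1 κ x X) + AE κ ε x (jx2 κ x X)
      = (1/2 : ℝ) • qimL (jw1 κ ε x X) :=
  ⟨gam_jx1 gam_hE hκ hx hX hxX, AE_jx1 hκ hx, AE_jx1_deriv hκ hx hX hxX⟩

end Pool.Agent.Helper96.HP
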